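import Pool.Agent.H23.SM.Targets
import Pool.Agent.H29.DW.Tools
import Pool.Agent.H23.LC.Targets
import Pool.Agent.H23.LB.Targets

/-!
MP_52e316_nt, board sm2_modules, row BP: the mean square of the first sums over a box.
-/

set_option autoImplicit false

open NumberField NumberField.InfinitePlace NumberField.Units
  NumberField.Units.dirichletUnitTheorem MeasureTheory Set Filter Complex
open scoped nonZeroDivisors ENNReal

namespace Pool.Agent.H19.SM.BP

open Pool.Agent.H25.HK Pool.Agent.H23.LB Pool.Agent.H23.LC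
open Pool.Agent.H28.RC (Rep ft idl)
open Pool.Agent.H29.DW (dg Rl lf wv Pos Wg cpar Ci om zs rv Wt an_eq norm_aq rv_iff le_norm_cpar
  norm_cpar_le one_le_Ci sum_mult)
open Pool.Agent.H31.SW (EE itg FF HD DB DS dif Pf GG G2 DD PP pF dK pz ps Tf WG bz W_UP W_WL)
open Pool.Agent.H27.TM
open Pool.Agent.H23.SM

private theorem norm_EE (z : ℂ) : ‖EE z‖ = 1 := by
  unfold EE
  rw [← Complex.ofReal_neg]
  exact Complex.norm_exp_ofReal_mul_I _

private theorem pz_norm (r : Bool) (x : ℂ) : ‖pz r x‖ ≤ 1 := by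
  unfold pz
  rw [Complex.norm_real, Real.norm_eq_abs, abs_of_nonneg bz.nonneg]
  exact bz.le_one

private theorem pz_zero (r : Bool) (x : ℂ) (h : 1 / 16 < ‖x‖) : pz r x = 0 := by
  unfold pz
  have h1 : bz x = 0 := by
    refine bz.zero_of_le_dist ?_
    rw [dist_zero_right]
    show (1 : ℝ) / 10000 ≤ ‖x‖
    linarith
  rw [h1, Complex.ofReal_zero]

section

variable {K : Type} [Field K] [NumberField K]

private theorem Tf_pz (c : InfinitePlace K → ℂ) : Tf (fun v => GG (pz (rv v)) (c v)) := by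
  refine ⟨fun v => ?_, fun v w => ?_, fun v w hw => ?_⟩
  · unfold GG EE pz
    have h1 : Measurable fun w : ℂ => ((bz (w - 1) : ℝ) : ℂ) :=
      Complex.measurable_ofReal.comp
        (bz.continuous.measurable.comp (measurable_id.sub_const 1))
    refine Measurable.mul ?_ h1
    refine Complex.measurable_exp.comp ?_
    refine Measurable.mul_const ?_ _
    refine Measurable.neg ?_
    refine Complex.measurable_ofReal.comp (Complex.measurable_re.comp ?_)
    exact Measurable.const_mul Complex.measurable_log _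
  · simp only [GG]
    rw [norm_mul, norm_EE, one_mul]
    exact pz_norm _ _
  · simp only [GG]
    rw [pz_zero _ _ hw, mul_zero]

private theorem ec_norm (ν : InfinitePlace K → ℝ) (z : logSpace K) : ‖ec K ν z‖ = 1 := by
  unfold ec
  rw [← Complex.ofReal_neg]
  exact Complex.norm_exp_ofReal_mul_I _

private theorem ek_norm (k : InfinitePlace K → ℤ) (θ : InfinitePlace K → ℝ) : ‖ek k θ‖ = 1 := by
  unfold ek
  rw [norm_prod]
  refine Finset.prod_eq_one fun v _ => ?_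
  rw [norm_zpow, an_eq, norm_aq, one_zpow]

private theorem one_le_Nf {I : Ideal (𝓞 K)} (hI : I ≠ ⊥) : 1 ≤ Nf K I := by
  unfold Nf
  have : Ideal.absNorm I ≠ 0 := fun h => hI (Ideal.absNorm_eq_zero_iff.1 h)
  exact_mod_cast Nat.one_le_iff_ne_zero.2 this

private theorem one_le_disc : 1 ≤ |(discr K : ℝ)| := by
  have h := Int.one_le_abs (discr_ne_zero K)
  exact_mod_cast h

private theorem one_le_tor : (1 : ℝ) ≤ (torsionOrder K : ℝ) := by
  exact_mod_cast Nat.one_le_iff_ne_zero.2 (NeZero.ne _)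

private theorem Ci_le_PP {n : ℕ} (hn : Module.finrank ℚ K = n) (k : InfinitePlace K → ℤ)
    (ν : InfinitePlace K → ℝ) (t : ℝ)
    (hk : ∀ v : InfinitePlace K, v.IsReal → k v = 0 ∨ k v = 1) :
    Ci k ν t ≤ 3 ^ n * PP (fun v => 1 + ‖cpar k ν t v‖) := by
  unfold PP Ci
  rw [← sum_mult hn, ← Finset.prod_pow_eq_pow_sum, ← Finset.prod_mul_distrib]
  refine Finset.prod_le_prod (fun v _ => by positivity) fun v _ => ?_
  rw [← mul_pow]
  refine pow_le_pow_left₀ (by positivity) ((le_norm_cpar k ν t hk v).trans ?_) _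
  have h1 : max 1 ‖cpar k ν t v‖ ≤ 1 + ‖cpar k ν t v‖ :=
    max_le (by have := norm_nonneg (cpar k ν t v); linarith) (by linarith)
  linarith

private theorem Wt_bound {κ X B : ℝ} {v : ℝ → ℂ} (h : Wt κ X B v) :
    ∃ C : ℝ, ∀ x : ℝ, 1 ≤ x → ‖v x‖ ≤ C * x ^ (-(3 / 2) : ℝ) := by
  obtain ⟨g, hgm, hg, hv⟩ := h 1 (Or.inr rfl)
  have hi : Integrable (fun y : ℝ => Real.exp (-(1 / 4) * y ^ 2)) :=
    integrable_exp_neg_mul_sq (by norm_num)
  refine ⟨B * X ^ (1 : ℝ) * ∫ y : ℝ, Real.exp (-(1 / 4) * y ^ 2), fun x hx => ?_⟩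
  have hx0 : 0 < x := by linarith
  rw [hv x hx0]
  have h1 : ∀ y : ℝ, ‖g y * (x : ℂ) ^ (-(1 / 2 + (1 : ℝ) + y * I : ℂ))‖ ≤
      (B * X ^ (1 : ℝ) * x ^ (-(3 / 2) : ℝ)) * Real.exp (-(1 / 4) * y ^ 2) := by
    intro y
    have h2 : (-(1 / 2 + (1 : ℝ) + y * I : ℂ)).re = -(3 / 2) := by
      simp
      norm_num
    rw [norm_mul, Complex.norm_cpow_eq_rpow_re_of_pos hx0, h2]
    have h3 := hg y
    have e : -y ^ 2 / 4 = -(1 / 4) * y ^ 2 := by ring
    rw [e] at h3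
    calc _ ≤ (B * X ^ (1 : ℝ) * Real.exp (-(1 / 4) * y ^ 2)) * x ^ (-(3 / 2) : ℝ) := by
          gcongr
      _ = _ := by ring
  have h4 := norm_integral_le_of_norm_le (hi.const_mul (B * X ^ (1 : ℝ) * x ^ (-(3 / 2) : ℝ)))
    (Filter.Eventually.of_forall h1)
  calc _ ≤ _ := h4
    _ = _ := by
      rw [integral_const_mul]
      ring

private theorem sum_int_le {ι α : Type} [Fintype ι] [MeasurableSpace α] (μ : Measure α)
    (S : Set α) (F : ι → α → ℂ) (G : ι → α → ℝ) (h : ∀ c a, ‖F c a‖ = G c a) :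
    ENNReal.ofReal ‖∑ c, ∫ p in S, F c p ∂μ‖ ≤
      ∑ c, ∫⁻ p in S, ENNReal.ofReal (G c p) ∂μ := by
  rw [ofReal_norm]
  refine (enorm_sum_le _ _).trans (Finset.sum_le_sum fun c _ => ?_)
  refine (enorm_integral_le_lintegral_enorm _).trans (le_of_eq ?_)
  refine lintegral_congr fun a => ?_
  rw [← ofReal_norm, h]

end

open scoped Classical in
theorem pf_BP (hUP : Pool.Agent.H31.SW.W_UP) (hWL : Pool.Agent.H31.SW.W_WL) (hBI : S_BI)
    (hCG : Pool.Agent.H23.LC.U_CG) (hSY : Pool.Agent.H23.LB.T_SY) : S_BP := by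
  intro n hn
  obtain ⟨B₁, hB₁, hBI'⟩ := hBI n hn
  refine ⟨B₁, hB₁, fun ε κ hε hε1 hκ hκ1 => ?_⟩
  obtain ⟨C, hC0, hC⟩ := hBI' ε κ hε hε1 hκ hκ1
  obtain ⟨c₀, hc₀, hc⟩ := hWL n hn
  refine ⟨c₀⁻¹ ^ 2 * C, by positivity, fun K _ _ hK f hf H τ S B D v hτ hcls hclo hspc hD hB hWt => ?_⟩
  obtain ⟨Y⟩ := hSY K f hf
  have hd1 : 1 ≤ dK K := one_le_disc
  have hf1 := one_le_Nf hf
  have hPP1 : 1 ≤ PP τ := by
    unfold PP
    refine Finset.prod_induction _ (fun x : ℝ => 1 ≤ x)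
      (fun a b ha hb => one_le_mul_of_one_le_of_one_le ha hb) le_rfl
      fun v _ => one_le_pow₀ (hτ v).1
  have hY1 : 1 ≤ 6 ^ n * (dK K * Nf K f * PP τ) :=
    one_le_mul_of_one_le_of_one_le (one_le_pow₀ (by norm_num))
      (one_le_mul_of_one_le_of_one_le (one_le_mul_of_one_le_of_one_le hd1 hf1) hPP1)
  have hX2 : Real.sqrt (6 ^ n * (dK K * Nf K f * PP τ)) ^ 2 ≤
      6 ^ n * (dK K * Nf K f * PP τ) := by
    rw [Real.sq_sqrt (by linarith)]
  -- the weights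
  have hWt' : ∀ q ∈ S, Wt κ (Real.sqrt (6 ^ n * (dK K * Nf K f * PP τ))) B (v q) := by
    intro q hq σ hσ
    obtain ⟨g, hg1, hg2, hg3⟩ := hWt q hq σ hσ
    refine ⟨g, hg1, fun y => (hg2 y).trans ?_, hg3⟩
    have hσ0 : 0 ≤ σ := by
      rcases hσ with rfl | rfl
      · exact hκ.le
      · exact zero_le_one
    have h1 : |(discr K : ℝ)| * Nf K f * Ci q.1.k q.1.ν q.2 ≤
        6 ^ n * (dK K * Nf K f * PP τ) := by
      have h2 := Ci_le_PP hK q.1.k q.1.ν q.2 q.1.real_k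
      have h3 : PP (fun v => 1 + ‖cpar q.1.k q.1.ν q.2 v‖) ≤ 2 ^ n * PP τ := by
        unfold PP
        rw [← sum_mult hK, ← Finset.prod_pow_eq_pow_sum, ← Finset.prod_mul_distrib]
        refine Finset.prod_le_prod (fun v _ => by positivity) fun v _ => ?_
        rw [← mul_pow]
        exact pow_le_pow_left₀ (by positivity) ((hcls q hq).upp v) _
      have h4 : (6 : ℝ) ^ n = 3 ^ n * 2 ^ n := by
        rw [← mul_pow]
        norm_num
      have h5 : 0 ≤ |(discr K : ℝ)| * Nf K f := by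
        have : 0 ≤ Nf K f := by linarith
        positivity
      calc |(discr K : ℝ)| * Nf K f * Ci q.1.k q.1.ν q.2
          ≤ |(discr K : ℝ)| * Nf K f * (3 ^ n * (2 ^ n * PP τ)) := by
            refine mul_le_mul_of_nonneg_left (h2.trans ?_) h5
            exact mul_le_mul_of_nonneg_left h3 (by positivity)
        _ = _ := by
            rw [h4]
            unfold dK
            ring
    have h6 := Real.rpow_le_rpow (Real.sqrt_nonneg _) (Real.sqrt_le_sqrt h1) hσ0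
    gcongr
  have key := hC K hK Y.ι Y.M Y.reps f H τ (HG K f × ℝ) S cq
    (Real.sqrt (6 ^ n * (dK K * Nf K f * PP τ))) B D 1 v (fun q i => cg q.1 (Y.M i)) true hf hτ
    hcls hclo hspc hD (Real.one_le_sqrt.2 hY1) hX2 hB hWt' zero_le_one
    (fun q _ i => (hCG K f q.1 (Y.M i) hf (Y.reps.1 i)).2.2.2.1)
    (fun q _ i => (hCG K f q.1 (Y.M i) hf (Y.reps.1 i)).2.1)
  have hone : ∀ q ∈ S, ENNReal.ofReal (c₀ * ‖∑' J : NZI K, q.1.ψ J.1 * v q (Ideal.absNorm J.1) *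
      (Ideal.absNorm J.1 : ℂ) ^ (-(q.2 * I : ℂ))‖) ≤
      ∑ i, ∫⁻ u in Fd K ×ˢ (univ : Set ℝ) ×ˢ An K,
        ENNReal.ofReal ‖∑' x : {x : K // x ∈ Y.M i ∧ x ≠ 0}, cg q.1 (Y.M i) x *
          v q (Ideal.absNorm (idl K (Y.M i) x)) *
            pF (fun v => GG (pz (rv v)) (cq q v)) (yM K (Y.M i) u.2.1 (zs true u.1))
              (om true u.2.2) x‖ := by
    intro q hq
    have hU := hUP K f hf q.1 Y.ι Y.M Y.reps
      (fun v => GG (pz (rv v)) (cpar q.1.k q.1.ν q.2 v)) q.2 (v q) (Tf_pz _)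
      (Wt_bound (hWt q hq))
    set T : ℂ := ∑' J : NZI K, q.1.ψ J.1 * v q (Ideal.absNorm J.1) *
      (Ideal.absNorm J.1 : ℂ) ^ (-(q.2 * I : ℂ)) with hTdef
    set W : ℂ := WG K (fun v => GG (pz (rv v)) (cpar q.1.k q.1.ν q.2 v)) q.1.k q.1.ν q.2
      with hWdef
    have hWc : c₀ ≤ ‖W‖ := hc K hK q.1.k q.1.ν q.2 q.1.norm_zero
    have h1 : c₀ * ‖T‖ ≤ ‖(torsionOrder K : ℂ) * W * T‖ := by
      rw [norm_mul, norm_mul, Complex.norm_natCast]
      have h2 : (1 : ℝ) ≤ (torsionOrder K : ℝ) := one_le_tor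
      have h3 : 0 ≤ ‖W‖ * ‖T‖ := by positivity
      have h4 : c₀ * ‖T‖ ≤ ‖W‖ * ‖T‖ := by gcongr
      nlinarith
    refine (ENNReal.ofReal_le_ofReal h1).trans ?_
    rw [← hU]
    refine sum_int_le _ _ _ _ fun i a => ?_
    have e : ((q.2 : ℂ) * (a.2.1 : ℂ)) = ((q.2 * a.2.1 : ℝ) : ℂ) := by push_cast; rfl
    rw [norm_mul, norm_mul, norm_mul (ek _ _), ec_norm, ek_norm, e,
      Complex.norm_exp_ofReal_mul_I, one_mul, one_mul, one_mul]
    rfl
  have hHR : 0 ≤ (classNumber K : ℝ) * regulator K :=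
    mul_nonneg (Nat.cast_nonneg _) (regulator_pos K).le
  have hR0 : 0 ≤ C * ((B * 1 * (classNumber K * regulator K)) ^ 2 *
      (D * dK K * Nf K f) ^ B₁ * PP τ ^ ε * PP H) := by
    have h1 : 0 ≤ (D * dK K * Nf K f) ^ B₁ := by
      refine Real.rpow_nonneg (mul_nonneg (mul_nonneg ?_ ?_) ?_) _ <;> linarith
    have h2 : 0 ≤ PP τ ^ ε := Real.rpow_nonneg (by linarith) _
    have h3 : 0 ≤ PP H := by
      unfold PP
      refine Finset.prod_nonneg fun v _ => pow_nonneg ?_ _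
      have := (hτ v).2.1
      linarith
    positivity
  have hsum : ∑ q ∈ S, (c₀ * ‖∑' J : NZI K, q.1.ψ J.1 * v q (Ideal.absNorm J.1) *
      (Ideal.absNorm J.1 : ℂ) ^ (-(q.2 * I : ℂ))‖) ^ 2 ≤
      C * ((B * 1 * (classNumber K * regulator K)) ^ 2 *
      (D * dK K * Nf K f) ^ B₁ * PP τ ^ ε * PP H) := by
    rw [← ENNReal.ofReal_le_ofReal_iff hR0, ENNReal.ofReal_sum_of_nonneg
      (fun q _ => by positivity)]
    refine le_trans (Finset.sum_le_sum fun q hq => ?_) key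
    rw [ENNReal.ofReal_pow (by positivity)]
    exact pow_le_pow_left₀ zero_le (hone q hq) 2
  have hfin : ∑ q ∈ S, ‖∑' J : NZI K, q.1.ψ J.1 * v q (Ideal.absNorm J.1) *
      (Ideal.absNorm J.1 : ℂ) ^ (-(q.2 * I : ℂ))‖ ^ 2 = c₀⁻¹ ^ 2 *
      ∑ q ∈ S, (c₀ * ‖∑' J : NZI K, q.1.ψ J.1 * v q (Ideal.absNorm J.1) *
      (Ideal.absNorm J.1 : ℂ) ^ (-(q.2 * I : ℂ))‖) ^ 2 := by
    rw [Finset.mul_sum]
    refine Finset.sum_congr rfl fun q _ => ?_
    rw [mul_pow, ← mul_assoc, ← mul_pow, inv_mul_cancel₀ hc₀.ne', one_pow, one_mul]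
  rw [hfin]
  refine (mul_le_mul_of_nonneg_left hsum (by positivity)).trans (le_of_eq ?_)
  ring

end Pool.Agent.H19.SM.BP
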