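import Pool.Agent.H20.SM.TZ
import Pool.Agent.H40.CRG.B
import Pool.Agent.H65.CRG.All

/-!
# The mollified second moment with shifts, special moduli (row Bz)
-/

set_option autoImplicit false

open NumberField NumberField.InfinitePlace Complex Filter Topology MeasureTheory

namespace Pool.Agent.H19.SM

open Pool.Agent.H28.RC Pool.Agent.H25.HK Pool.Agent.H37.CV
open Pool.Agent.H65.CRZ Pool.Agent.H65.CRG Pool.Agent.H20.SM

/-- the parameters -/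
lemma Bz_par (r : ℕ) (hr : 1 ≤ r) (c ε : ℝ) (hc : 0 < c) (hε : 0 < ε) (hε' : ε < 1 / 2)
    (M₀ : ℝ) : ∃ q₀ : ℕ, ∀ q : ℕ, q₀ ≤ q → ∀ M : ℝ, M = ((q : ℝ) ^ (2 * r)) ^ (1 / 2 - ε) →
      M₀ ≤ M ∧ Real.log M = r * (1 - 2 * ε) * Real.log q ∧ M ^ (1 + ε) ≤ c * (q : ℝ) ^ r ∧
        c * (q : ℝ) ^ r ≤ M ^ (2 / (1 - 2 * ε)) ∧ M ≤ c * (q : ℝ) ^ r := by
  have hr0 : (0 : ℝ) < r := by exact_mod_cast hr
  have h2ε : 0 < 1 - 2 * ε := by linarith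
  have ha : 0 < r * (1 - 2 * ε) := mul_pos hr0 h2ε
  have hb : 0 < r * ε := mul_pos hr0 hε
  have t1 : Tendsto (fun q : ℕ => (q : ℝ) ^ (r * (1 - 2 * ε))) atTop atTop :=
    (tendsto_rpow_atTop ha).comp tendsto_natCast_atTop_atTop
  have t2 : Tendsto (fun q : ℕ => (q : ℝ) ^ (r * ε)) atTop atTop :=
    (tendsto_rpow_atTop hb).comp tendsto_natCast_atTop_atTop
  have t3 : Tendsto (fun q : ℕ => (q : ℝ) ^ (r : ℝ)) atTop atTop :=
    (tendsto_rpow_atTop hr0).comp tendsto_natCast_atTop_atTop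
  obtain ⟨q₀, hq₀⟩ := eventually_atTop.1 ((t1.eventually_ge_atTop M₀).and
    ((t2.eventually_ge_atTop (1 / c)).and ((t3.eventually_ge_atTop c).and
      (eventually_ge_atTop 1))))
  refine ⟨q₀, fun q hq M hM => ?_⟩
  obtain ⟨h1, h2, h3, h4⟩ := hq₀ q hq
  have hq1 : (1 : ℝ) ≤ q := by exact_mod_cast h4
  have hq0 : (0 : ℝ) < q := by linarith
  have hM' : M = (q : ℝ) ^ (r * (1 - 2 * ε)) := by
    rw [hM, ← Real.rpow_natCast, ← Real.rpow_mul hq0.le]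
    congr 1
    push_cast
    ring
  have hM1 : 1 ≤ M := by
    rw [hM']
    exact Real.one_le_rpow hq1 ha.le
  have e1 : (q : ℝ) ^ (r * (1 - ε)) ≤ c * (q : ℝ) ^ r := by
    have e2 : (q : ℝ) ^ r = (q : ℝ) ^ (r * (1 - ε)) * (q : ℝ) ^ (r * ε) := by
      rw [← Real.rpow_add hq0, ← Real.rpow_natCast]
      congr 1
      ring
    rw [e2]
    have e3 : 1 ≤ c * (q : ℝ) ^ (r * ε) := by
      rw [div_le_iff₀ hc] at h2
      linarith
    have e4 : 0 ≤ (q : ℝ) ^ (r * (1 - ε)) := by positivity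
    calc (q : ℝ) ^ (r * (1 - ε)) = (q : ℝ) ^ (r * (1 - ε)) * 1 := (mul_one _).symm
      _ ≤ (q : ℝ) ^ (r * (1 - ε)) * (c * (q : ℝ) ^ (r * ε)) := mul_le_mul_of_nonneg_left e3 e4
      _ = _ := by ring
  have e5 : M ^ (1 + ε) ≤ c * (q : ℝ) ^ r := by
    refine le_trans ?_ e1
    rw [hM', ← Real.rpow_mul hq0.le]
    refine Real.rpow_le_rpow_of_exponent_le hq1 ?_
    nlinarith [mul_pos hr0 (mul_pos hε hε)]
  refine ⟨?_, ?_, e5, ?_, ?_⟩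
  · rw [hM']
    exact h1
  · rw [hM', Real.log_rpow hq0]
  · rw [hM', ← Real.rpow_mul hq0.le]
    have e6 : (r : ℝ) * (1 - 2 * ε) * (2 / (1 - 2 * ε)) = r + r := by
      field_simp
      ring
    rw [e6, Real.rpow_add hq0, Real.rpow_natCast]
    have e7 : c ≤ (q : ℝ) ^ r := by
      rw [← Real.rpow_natCast]
      exact h3
    exact mul_le_mul_of_nonneg_right e7 (by positivity)
  · refine le_trans ?_ e5
    calc M = M ^ (1 : ℝ) := (Real.rpow_one M).symm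
      _ ≤ M ^ (1 + ε) := Real.rpow_le_rpow_of_exponent_le hM1 (by linarith)

/-- the moduli are large -/
lemma Bz_large (F : Type) [Field F] [NumberField F] (A : ℕ) (x : ℝ) (q : ℕ)
    (hx : Real.exp 1 ≤ x) (h : Sp F A x q) : Real.sqrt x ≤ q ∧ 2 ≤ q := by
  have hx0 : 0 < x := lt_of_lt_of_le (Real.exp_pos 1) hx
  have h1 : 1 ≤ Real.log x := by
    rw [← Real.log_exp 1]
    exact Real.log_le_log (Real.exp_pos 1) hx
  have h2 : (1 : ℝ) ≤ q.primeFactors.card := (one_le_pow₀ h1).trans h.lo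
  have h3 : 1 ≤ q.primeFactors.card := by exact_mod_cast h2
  obtain ⟨p, hp⟩ := Finset.card_pos.1 h3
  have h4 := h.low p hp
  have hq0 : 0 < q := Nat.pos_of_ne_zero h.sq.1.ne_zero
  have h5 : p ≤ q := Nat.le_of_dvd hq0 (Nat.dvd_of_mem_primeFactors hp)
  have h6 : (p : ℝ) ≤ q := by exact_mod_cast h5
  exact ⟨h4.trans h6, (Nat.prime_of_mem_primeFactors hp).two_le.trans h5⟩

/-- the last estimate -/
lemma Bz_fin (S₁ S₂ X D₁ D₂ m b : ℂ) (N η CX v BX B₁ B₂ B₃ : ℝ) (hN0 : 0 ≤ N) (hv : 1 ≤ v)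
    (hη : 0 < η) (hCX : 0 < CX) (hBX : 0 ≤ BX) (hB₁ : 0 ≤ B₁) (hB₂ : 0 ≤ B₂) (hB₃ : 0 ≤ B₃)
    (k1 : ‖S₁ - N * D₁‖ ≤ η / (3 * (1 + CX)) * v ^ B₁ * N)
    (hX : ‖X‖ ≤ CX * v ^ BX)
    (k2 : ‖S₂ - N * D₂‖ ≤ η / (3 * (1 + CX)) * v ^ B₁ * N)
    (hDI : ‖(D₁ + X * D₂) - m‖ ≤ η / 3 * v ^ B₂)
    (hBM : ‖m - b‖ ≤ η / 3 * v ^ B₃) :
    ‖(S₁ + X * S₂) - N * b‖ ≤ η * v ^ (B₁ + BX + B₂ + B₃) * N := by
  have hv0 : 0 < v := by linarith
  have e0 : (S₁ + X * S₂) - N * b = (S₁ - N * D₁) + X * (S₂ - N * D₂) +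
      N * ((D₁ + X * D₂) - m) + N * (m - b) := by ring
  rw [e0]
  set η₁ : ℝ := η / (3 * (1 + CX)) with hη₁
  have hη₁0 : 0 < η₁ := by positivity
  have t2 : ‖X * (S₂ - N * D₂)‖ ≤ (CX * v ^ BX) * (η₁ * v ^ B₁ * N) := by
    rw [norm_mul]
    exact mul_le_mul hX k2 (norm_nonneg _) (by positivity)
  have t3 : ‖(N : ℂ) * ((D₁ + X * D₂) - m)‖ ≤ N * (η / 3 * v ^ B₂) := by
    rw [norm_mul, Complex.norm_real, Real.norm_eq_abs, abs_of_nonneg hN0]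
    exact mul_le_mul_of_nonneg_left hDI hN0
  have t4 : ‖(N : ℂ) * (m - b)‖ ≤ N * (η / 3 * v ^ B₃) := by
    rw [norm_mul, Complex.norm_real, Real.norm_eq_abs, abs_of_nonneg hN0]
    exact mul_le_mul_of_nonneg_left hBM hN0
  have w1 : v ^ B₁ ≤ v ^ BX * v ^ B₁ := by
    have := Real.one_le_rpow hv hBX
    have h7 : 0 ≤ v ^ B₁ := by positivity
    nlinarith
  have w2 : v ^ BX * v ^ B₁ ≤ v ^ (B₁ + BX + B₂ + B₃) := by
    rw [← Real.rpow_add hv0]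
    exact Real.rpow_le_rpow_of_exponent_le hv (by linarith)
  have w3 : v ^ B₂ ≤ v ^ (B₁ + BX + B₂ + B₃) :=
    Real.rpow_le_rpow_of_exponent_le hv (by linarith)
  have w4 : v ^ B₃ ≤ v ^ (B₁ + BX + B₂ + B₃) :=
    Real.rpow_le_rpow_of_exponent_le hv (by linarith)
  set W : ℝ := v ^ (B₁ + BX + B₂ + B₃) with hW
  have v1 : ‖S₁ - N * D₁‖ + ‖X * (S₂ - N * D₂)‖ ≤ η / 3 * W * N := by
    calc ‖S₁ - N * D₁‖ + ‖X * (S₂ - N * D₂)‖
        ≤ η₁ * v ^ B₁ * N + (CX * v ^ BX) * (η₁ * v ^ B₁ * N) := add_le_add k1 t2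
      _ ≤ η₁ * (v ^ BX * v ^ B₁) * N + (CX * v ^ BX) * (η₁ * v ^ B₁ * N) := by gcongr
      _ = η₁ * (1 + CX) * (v ^ BX * v ^ B₁) * N := by ring
      _ = η / 3 * (v ^ BX * v ^ B₁) * N := by
          rw [hη₁]
          have : 1 + CX ≠ 0 := by positivity
          field_simp
      _ ≤ η / 3 * W * N := by gcongr
  have v3 : N * (η / 3 * v ^ B₂) ≤ N * (η / 3 * W) := by gcongr
  have v4 : N * (η / 3 * v ^ B₃) ≤ N * (η / 3 * W) := by gcongr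
  have n1 := norm_add_le ((S₁ - N * D₁) + X * (S₂ - N * D₂) + N * ((D₁ + X * D₂) - m))
    (N * (m - b))
  have n2 := norm_add_le ((S₁ - N * D₁) + X * (S₂ - N * D₂)) (N * ((D₁ + X * D₂) - m))
  have n3 := norm_add_le (S₁ - N * D₁) (X * (S₂ - N * D₂))
  have e9 : η * W * N = η / 3 * W * N + N * (η / 3 * W) + N * (η / 3 * W) := by ring
  rw [e9]
  linarith

theorem pf_Bz (hSE : T_SEz) (hDI : T_DIz) (hBM : T_BMz) (hCQ : T_CQz) (hIE : T_IEq) :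
    T_Bz := by
  have hAF : Pool.Agent.H65.CRG.T_AF := d_AF
  have hG3 : Pool.Agent.H65.CRG.T_G3 := d_G3
  intro F _ _ _ _
  obtain ⟨A₀, hSE⟩ := hSE F
  refine ⟨A₀, fun A ε₁ c C₀ hA hε hε' hc hC₀ => ?_⟩
  obtain ⟨E, hE⟩ := a_ZK F
  have hE' : IsE F E := hE
  obtain ⟨hr, hfr, cK, hcK, hcA⟩ := hCQ F
  set r : ℕ := nrComplexPlaces F with hrdef
  have hr0 : (0 : ℝ) < r := by exact_mod_cast hr
  have h2ε : 0 < 1 - 2 * ε₁ := by linarith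
  set a : ℝ := r * (1 - 2 * ε₁) with ha
  have ha0 : 0 < a := mul_pos hr0 h2ε
  obtain ⟨B₁, hB₁, hSE⟩ := hSE A ε₁ c C₀ hA hε hε' hc hC₀
  obtain ⟨B₂, hB₂, hDI⟩ := hDI F E ε₁ (2 / (1 - 2 * ε₁)) (a * c) (a * C₀) hE' hε
    (by positivity) (by positivity) (by positivity)
  obtain ⟨B₃, hB₃, hBM⟩ := hBM F E (2 / (1 - 2 * ε₁)) (a * c) (a * C₀) hE'
    (by positivity) (by positivity) (by positivity)
  obtain ⟨CX, BX, hCX, hBX, q₁, hX⟩ := Pool.Agent.H40.CRG.norm_Xn_le hG3 r cK C₀ hcK hC₀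
  refine ⟨B₁ + BX + B₂ + B₃, by positivity, fun η hη => ?_⟩
  set η₁ : ℝ := η / (3 * (1 + CX)) with hη₁
  have hη₁0 : 0 < η₁ := by positivity
  obtain ⟨x₂, hx₂⟩ := hSE η₁ hη₁0
  obtain ⟨M₃, hM₃⟩ := hDI (η / 3) (by positivity)
  obtain ⟨M₄, hM₄⟩ := hBM (η / 3) (by positivity)
  obtain ⟨q₅, hq₅⟩ := Pool.Agent.H91.CRZ.log_large C₀ (1 / 4) (by norm_num)
  obtain ⟨q₆, hq₆⟩ := Bz_par r hr cK ε₁ hcK hε hε' (max M₃ M₄)
  refine ⟨max (max (Real.exp 1) x₂) (((max q₁ (max q₅ q₆) : ℕ) : ℝ) ^ 2),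
    fun x q hx hSp α β u hα hβ hαβ => ?_⟩
  have hxe : Real.exp 1 ≤ x := (le_max_left _ _).trans ((le_max_left _ _).trans hx)
  have hxb : x₂ ≤ x := (le_max_right _ _).trans ((le_max_left _ _).trans hx)
  obtain ⟨hqx, hq2⟩ := Bz_large F A x q hxe hSp
  have hQq : max q₁ (max q₅ q₆) ≤ q := by
    have h1 : ((max q₁ (max q₅ q₆) : ℕ) : ℝ) ≤ Real.sqrt x := by
      refine Real.le_sqrt_of_sq_le ?_
      exact (le_max_right _ _).trans hx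
    exact_mod_cast h1.trans hqx
  have hqa : q₁ ≤ q := (le_max_left _ _).trans hQq
  have hqe : q₅ ≤ q := (le_max_left _ _).trans ((le_max_right _ _).trans hQq)
  have hqf : q₆ ≤ q := (le_max_right _ _).trans ((le_max_right _ _).trans hQq)
  obtain ⟨hl1, hl2⟩ := hq₅ q hqe
  have hl0 : 0 < Real.log q := by linarith
  obtain ⟨hcA1, hcA2⟩ := hcA q (by omega)
  have hMdef : Mo F ε₁ q = ((q : ℝ) ^ (2 * r)) ^ (1 / 2 - ε₁) := by
    unfold Mo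
    rw [hcA2, hfr]
  obtain ⟨m1, m2, m3, m4, m5⟩ := hq₆ q hqf (Mo F ε₁ q) hMdef
  have hX' := hX q hqa α β u hα hβ
  rw [← hcA1] at hX' m3 m4 m5
  have hlogM : Real.log (Mo F ε₁ q) = a * Real.log q := by rw [m2, ha]
  have hdiv : ∀ t : ℝ, a * t / Real.log (Mo F ε₁ q) = t / Real.log q := fun t => by
    rw [hlogM, mul_div_mul_left _ _ ha0.ne']
  have hDI' := hM₃ (Mo F ε₁ q) (cB F (qi F q)) ((le_max_left _ _).trans m1) m3 m4 α β u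
    (by rw [hdiv]; exact hα) (by rw [hdiv]; exact hβ) (by rw [hdiv]; exact hαβ)
  have hBM' := hM₄ (Mo F ε₁ q) (cB F (qi F q)) ((le_max_right _ _).trans m1) m5 m4 α β u
    (by rw [hdiv]; exact hα) (by rw [hdiv]; exact hβ) (by rw [hdiv]; exact hαβ)
  have k1 := hx₂ x q hxb hSp α β u hα hβ hαβ
  have k2 := hx₂ x q hxb hSp (-β) (-α) u (by rwa [norm_neg]) (by rwa [norm_neg])
    (by rwa [show -β + -α = -(α + β) by ring, norm_neg])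
  rw [show (1 / 2 + -β + u * I : ℂ) = 1 - (1 / 2 + β - u * I) by ring,
    show (1 / 2 + -α - u * I : ℂ) = 1 - (1 / 2 + α + u * I) by ring] at k2
  have hntop : qi F q ≠ ⊤ := by
    intro h
    have h1 : nm (qi F q) = 1 := by
      rw [h]
      unfold nm
      rw [Ideal.absNorm_top, Nat.cast_one]
    rw [hcA2, hfr] at h1
    have h2 : (1 : ℝ) < (q : ℝ) ^ (2 * r) :=
      one_lt_pow₀ (by exact_mod_cast hq2) (by omega)
    linarith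
  set M : ℝ := Mo F ε₁ q with hM
  set Q : ℝ := cB F (qi F q) ^ 2 with hQ
  set s₁ : ℂ := 1 / 2 + α + u * I with hs₁
  set s₂ : ℂ := 1 / 2 + β - u * I with hs₂
  have hre1 : s₁.re = 1 / 2 + α.re := by simp [hs₁]
  have hre2 : s₂.re = 1 / 2 + β.re := by simp [hs₂]
  have hαδ : |α.re| ≤ 1 / 4 := (Complex.abs_re_le_norm _).trans (hα.trans hl2)
  have hβδ : |β.re| ≤ 1 / 4 := (Complex.abs_re_le_norm _).trans (hβ.trans hl2)
  have hu0 : 0 ≤ |u| := abs_nonneg u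
  have hu1 : 1 ≤ 1 + |u| := by linarith
  -- the functional equation
  obtain ⟨hfin, -⟩ := hIE F q hSp.sq
  have hterm : ∀ χ ∈ Pr F (qi F q), Zx χ s₁ *
      (starRingEnd ℂ) (Zx χ (1 / 2 + (starRingEnd ℂ) β + u * I)) *
        ((‖pol M (cu F M u) χ.ψ‖ ^ 2 : ℝ) : ℂ) =
      A2n Q s₁ s₂ χ.ψ * (pol M (cu F M u) χ.ψ *
          pol M (cu F M (-u)) (fun I => (starRingEnd ℂ) (χ.ψ I))) +
        Xn r (cB F (qi F q)) s₁ s₂ *
          (A2n Q (1 - s₂) (1 - s₁) χ.ψ * (pol M (cu F M u) χ.ψ *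
            pol M (cu F M (-u)) (fun I => (starRingEnd ℂ) (χ.ψ I)))) := by
    intro χ hχ
    have hχ' : χ.f = qi F q := hχ
    have hf : χ.f ≠ ⊤ := by rw [hχ']; exact hntop
    have h7 := hAF F χ hf (Zx χ) (Pool.Agent.H91.CRZ.Zx_ent F χ hf) s₁ s₂
      (by linarith [neg_abs_le α.re]) (by linarith [le_abs_self α.re])
      (by linarith [neg_abs_le β.re]) (by linarith [le_abs_self β.re])
    have h8 : (starRingEnd ℂ) s₂ = 1 / 2 + (starRingEnd ℂ) β + u * I := by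
      apply Complex.ext
      · simp [hs₂]
      · simp [hs₂]
    rw [h8, hχ'] at h7
    rw [h7, ← Pool.Agent.H91.CRZ.conj_pol, Complex.mul_conj, Complex.normSq_eq_norm_sq]
    ring
  have hsum : (∑ᶠ χ ∈ Pr F (qi F q), Zx χ s₁ *
      (starRingEnd ℂ) (Zx χ (1 / 2 + (starRingEnd ℂ) β + u * I)) *
        ((‖pol M (cu F M u) χ.ψ‖ ^ 2 : ℝ) : ℂ)) =
      (∑ᶠ χ ∈ Pr F (qi F q), A2n Q s₁ s₂ χ.ψ * (pol M (cu F M u) χ.ψ *
          pol M (cu F M (-u)) (fun I => (starRingEnd ℂ) (χ.ψ I)))) +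
        Xn r (cB F (qi F q)) s₁ s₂ *
          ∑ᶠ χ ∈ Pr F (qi F q), A2n Q (1 - s₂) (1 - s₁) χ.ψ *
          (pol M (cu F M u) χ.ψ *
            pol M (cu F M (-u)) (fun I => (starRingEnd ℂ) (χ.ψ I))) := by
    rw [finsum_mem_eq_finite_toFinset_sum _ hfin, finsum_mem_eq_finite_toFinset_sum _ hfin,
      finsum_mem_eq_finite_toFinset_sum _ hfin, Finset.mul_sum, ← Finset.sum_add_distrib]
    exact Finset.sum_congr rfl fun χ hχ => hterm χ (by simpa using hχ)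
  rw [hsum]
  have hLg : Lg F q = 2 * Real.log (cB F (qi F q)) := rfl
  rw [hLg]
  set S₁ : ℂ := ∑ᶠ χ ∈ Pr F (qi F q), A2n Q s₁ s₂ χ.ψ * (pol M (cu F M u) χ.ψ *
          pol M (cu F M (-u)) (fun I => (starRingEnd ℂ) (χ.ψ I))) with hS₁
  set S₂ : ℂ := ∑ᶠ χ ∈ Pr F (qi F q), A2n Q (1 - s₂) (1 - s₁) χ.ψ *
          (pol M (cu F M u) χ.ψ *
            pol M (cu F M (-u)) (fun I => (starRingEnd ℂ) (χ.ψ I))) with hS₂
  set X : ℂ := Xn r (cB F (qi F q)) s₁ s₂ with hXX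
  set D₁ : ℂ := Dn (K := F) ⊤ Q M s₁ s₂ (cu F M u) (cu F M (-u)) ⊤ ⊤ with hD₁
  set D₂ : ℂ := Dn (K := F) ⊤ Q M (1 - s₂) (1 - s₁) (cu F M u) (cu F M (-u)) ⊤ ⊤ with hD₂
  set m : ℂ := 1 / (α + β) * E (1 + (α + β)) * Sd F M α β -
    X * (1 / (α + β) * E (1 - (α + β)) * Sd F M (-β) (-α)) with hm
  set b : ℂ := Bm α β (2 * Real.log (cB F (qi F q))) (Real.log M) with hb
  set N : ℝ := (nc (qi F q) (qi F q) : ℝ) with hN
  have hN0 : 0 ≤ N := Nat.cast_nonneg _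
  have hNc : ((nc (qi F q) (qi F q) : ℕ) : ℂ) = (N : ℂ) := by
    rw [hN]
    push_cast
    rfl
  rw [hNc] at k1 k2 ⊢
  exact Bz_fin S₁ S₂ X D₁ D₂ m b N η CX (1 + |u|) BX B₁ B₂ B₃ hN0 hu1 hη hCX hBX hB₁ hB₂ hB₃
    k1 hX' k2 hDI' hBM'

end Pool.Agent.H19.SM
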