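import Pool.Agent.H19.SM.FMOwb
import Pool.Agent.H37.CV.All

/-!
# Row FMOw of the board sm: the first moment opened, the mollifier moved to the right
-/

set_option autoImplicit false

namespace Pool.Agent.H19.SM

open Pool.Agent.H20.SM Pool.Agent.H37.CV

theorem pf_FMOw : T_FMOw := fmow_of a_OR a_WV a_DV

end Pool.Agent.H19.SM
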