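import Pool.Agent.H20.SM.TP

/-!
# Derivatives of the logarithmic derivative (row GBF)
-/

set_option autoImplicit false

open NumberField NumberField.InfinitePlace Complex Filter Topology

namespace Pool.Agent.H19.SM

open Pool.Agent.H20.SM
open Pool.Agent.H30.BV (cv DS)

/-- the derivative of a Dirichlet series with powers of the logarithm -/
lemma GBF_ds (f : ℕ → ℂ) (k : ℕ)
    (h : ∀ s : ℂ, 1 < s.re → LSeriesSummable (fun n => f n * ((Real.log n ^ k : ℝ) : ℂ)) s)
    (s : ℂ) (hs : 1 < s.re) : HasDerivAt (DS f k) (-(DS f (k + 1) s)) s := by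
  have ha : LSeries.abscissaOfAbsConv (fun n => f n * ((Real.log n ^ k : ℝ) : ℂ)) < s.re := by
    refine lt_of_le_of_lt (LSeries.abscissaOfAbsConv_le_of_forall_lt_LSeriesSummable (x := 1)
      fun y hy => h y (by simpa using hy)) ?_
    exact_mod_cast hs
  have h1 := LSeries_hasDerivAt ha
  have h2 : LSeries (LSeries.logMul (fun n => f n * ((Real.log n ^ k : ℝ) : ℂ))) s =
      DS f (k + 1) s := by
    unfold DS
    refine LSeries_congr (fun {n} hn => ?_) s
    simp only [LSeries.logMul]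
    rw [← Complex.natCast_log]
    push_cast
    ring
  rw [← h2]
  exact h1

/-- the derivatives of `L' = - L * G` -/
lemma GBF_leib (f g : ℕ → ℂ)
    (hf : ∀ (k : ℕ) (s : ℂ), 1 < s.re →
      LSeriesSummable (fun n => f n * ((Real.log n ^ k : ℝ) : ℂ)) s)
    (hg : ∀ (k : ℕ) (s : ℂ), 1 < s.re →
      LSeriesSummable (fun n => g n * ((Real.log n ^ k : ℝ) : ℂ)) s)
    (h0 : ∀ s : ℂ, 1 < s.re → DS f 1 s = DS f 0 s * DS g 0 s) (k : ℕ) :
    ∀ s : ℂ, 1 < s.re → DS f (k + 1) s = ∑ p ∈ Finset.HasAntidiagonal.antidiagonal k,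
      (k.choose p.1 : ℂ) * (DS g p.1 s * DS f p.2 s) := by
  induction k with
  | zero =>
    intro s hs
    simp only [Finset.Nat.antidiagonal_zero, Finset.sum_singleton, Nat.choose_self, Nat.cast_one,
      one_mul, zero_add]
    rw [h0 s hs, mul_comm]
  | succ k ih =>
    intro s hs
    have d1 : HasDerivAt (DS f (k + 1)) (-(DS f (k + 1 + 1) s)) s :=
      GBF_ds f (k + 1) (hf (k + 1)) s hs
    have d2 : HasDerivAt (fun s => ∑ p ∈ Finset.HasAntidiagonal.antidiagonal k,
        (k.choose p.1 : ℂ) * (DS g p.1 s * DS f p.2 s))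
        (∑ p ∈ Finset.HasAntidiagonal.antidiagonal k, (k.choose p.1 : ℂ) *
          (-(DS g (p.1 + 1) s) * DS f p.2 s + DS g p.1 s * -(DS f (p.2 + 1) s))) s := by
      refine HasDerivAt.fun_sum fun p _ => ?_
      exact ((GBF_ds g p.1 (hg p.1) s hs).mul (GBF_ds f p.2 (hf p.2) s hs)).const_mul _
    have hev : (fun s => ∑ p ∈ Finset.HasAntidiagonal.antidiagonal k,
        (k.choose p.1 : ℂ) * (DS g p.1 s * DS f p.2 s)) =ᶠ[𝓝 s] DS f (k + 1) := by
      have ho : IsOpen {z : ℂ | 1 < z.re} := isOpen_lt continuous_const Complex.continuous_re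
      filter_upwards [ho.mem_nhds hs] with z hz
      exact (ih z hz).symm
    have d3 := (hev.symm.hasDerivAt_iff.1 d1).unique d2
    have h1 : DS f (k + 1 + 1) s = ∑ p ∈ Finset.HasAntidiagonal.antidiagonal k, (k.choose p.1 : ℂ) *
        (DS g (p.1 + 1) s * DS f p.2 s + DS g p.1 s * DS f (p.2 + 1) s) := by
      have h2 : DS f (k + 1 + 1) s = -∑ p ∈ Finset.HasAntidiagonal.antidiagonal k, (k.choose p.1 : ℂ) *
          (-(DS g (p.1 + 1) s) * DS f p.2 s + DS g p.1 s * -(DS f (p.2 + 1) s)) := by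
        rw [← d3, neg_neg]
      rw [h2, ← Finset.sum_neg_distrib]
      refine Finset.sum_congr rfl fun p _ => ?_
      ring
    rw [h1, Finset.sum_antidiagonal_choose_succ_mul (fun i j => DS g i s * DS f j s) k,
      ← Finset.sum_add_distrib]
    refine Finset.sum_congr rfl fun p hp => ?_
    have h3 : k.choose p.2 = k.choose p.1 :=
      Nat.choose_symm_of_eq_add (by rw [← Finset.HasAntidiagonal.mem_antidiagonal.1 hp, add_comm])
    rw [h3]
    ring

theorem pf_GBF (hCFF : T_CFF) (hLBF : T_LBF) : T_GBF := by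
  intro F _ _ _ k
  obtain ⟨-, -, hcf⟩ := hCFF F
  choose A a hA0 hA using hLBF F
  induction k using Nat.strong_induction_on with
  | _ k ih =>
    choose! c e hc0 hc using ih
    have hS0 : 0 ≤ ∑ j ∈ Finset.range k, (k.choose j : ℝ) * (c j * A (k - j)) :=
      Finset.sum_nonneg fun j hj => mul_nonneg (Nat.cast_nonneg _)
        (mul_nonneg (hc0 j (Finset.mem_range.1 hj)).le (hA0 _).le)
    refine ⟨A (k + 1) + ∑ j ∈ Finset.range k, (k.choose j : ℝ) * (c j * A (k - j)),
      a (k + 1) + ∑ j ∈ Finset.range k, (e j + a (k - j)) + 1,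
      add_pos_of_pos_of_nonneg (hA0 _) hS0, ?_⟩
    intro r χ s m hr hRok hχ hs1 hs2 hm hm1 hms
    set l : ℝ := Real.log (r * (|s.im| + 3)) with hl
    have hr1 : (1 : ℝ) ≤ r := by exact_mod_cast (by omega : 1 ≤ r)
    have hl1 : 1 ≤ l := by
      rw [hl, Real.le_log_iff_exp_le (by positivity)]
      have h1 : Real.exp 1 < 3 := lt_trans Real.exp_one_lt_d9 (by norm_num)
      have h2 : (3 : ℝ) ≤ |s.im| + 3 := by linarith [abs_nonneg s.im]
      nlinarith
    have hD : ∀ j, ‖DS (ac F χ) j s‖ ≤ A j * l ^ a j := fun j =>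
      hA j r χ s hr hRok hχ hs1 (by linarith)
    have hG : ∀ j < k, ‖DS (fun n => (ArithmeticFunction.vonMangoldt n : ℂ) * gc F χ n) j s‖ ≤
        c j * (l / m) ^ e j := fun j hj => hc j hj r χ s m hr hRok hχ hs1 hs2 hm hm1 hms
    set G : ℕ → ℂ := fun n => (ArithmeticFunction.vonMangoldt n : ℂ) * gc F χ n with hGdef
    have hkey := GBF_leib (ac F χ) G
      (fun k s hs => ((hcf r χ s (by omega) hs).1 k).1)
      (fun k s hs => ((hcf r χ s (by omega) hs).1 k).2)
      (fun s hs => (hcf r χ s (by omega) hs).2.2) k s hs1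
    rw [Finset.Nat.sum_antidiagonal_eq_sum_range_succ_mk, Finset.sum_range_succ] at hkey
    simp only [Nat.choose_self, Nat.sub_self, Nat.cast_one, one_mul] at hkey
    have h1 : DS G k s * DS (ac F χ) 0 s = DS (ac F χ) (k + 1) s -
        ∑ j ∈ Finset.range k, (k.choose j : ℂ) * (DS G j s * DS (ac F χ) (k - j) s) := by
      rw [hkey]; ring
    have hL1 : 1 ≤ l / m := by
      rw [le_div_iff₀ hm]; linarith
    have hL0 : 0 ≤ l / m := by linarith
    have hlL : l ≤ l / m := by
      rw [le_div_iff₀ hm]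
      nlinarith
    set E : ℕ := a (k + 1) + ∑ j ∈ Finset.range k, (e j + a (k - j)) with hE
    have hle : ∀ j ∈ Finset.range k, e j + a (k - j) ≤ E := fun j hj => by
      have h9 : e j + a (k - j) ≤ ∑ j ∈ Finset.range k, (e j + a (k - j)) :=
        Finset.single_le_sum (f := fun j => e j + a (k - j)) (fun i _ => Nat.zero_le _) hj
      omega
    have h2 : ‖DS G k s‖ * ‖DS (ac F χ) 0 s‖ ≤ A (k + 1) * (l / m) ^ E +
        ∑ j ∈ Finset.range k, (k.choose j : ℝ) * (c j * A (k - j)) * (l / m) ^ E := by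
      rw [← norm_mul, h1]
      refine (norm_sub_le _ _).trans (add_le_add ?_ ?_)
      · refine (hD (k + 1)).trans (mul_le_mul_of_nonneg_left ?_ (hA0 _).le)
        exact (pow_le_pow_left₀ (by linarith) hlL _).trans
          (pow_le_pow_right₀ hL1 (by omega))
      · refine (norm_sum_le _ _).trans (Finset.sum_le_sum fun j hj => ?_)
        rw [norm_mul, norm_mul, Complex.norm_natCast, mul_assoc]
        refine mul_le_mul_of_nonneg_left ?_ (Nat.cast_nonneg _)
        have hcj := (hc0 j (Finset.mem_range.1 hj)).le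
        calc ‖DS G j s‖ * ‖DS (ac F χ) (k - j) s‖ ≤
              (c j * (l / m) ^ e j) * (A (k - j) * l ^ a (k - j)) :=
              mul_le_mul (hG j (Finset.mem_range.1 hj)) (hD _) (norm_nonneg _) (by positivity)
          _ ≤ (c j * (l / m) ^ e j) * (A (k - j) * (l / m) ^ a (k - j)) :=
              mul_le_mul_of_nonneg_left (mul_le_mul_of_nonneg_left
                (pow_le_pow_left₀ (by linarith) hlL _) (hA0 _).le) (by positivity)
          _ = c j * A (k - j) * (l / m) ^ (e j + a (k - j)) := by rw [pow_add]; ring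
          _ ≤ c j * A (k - j) * (l / m) ^ E :=
              mul_le_mul_of_nonneg_left (pow_le_pow_right₀ hL1 (hle j hj))
                (mul_nonneg hcj (hA0 _).le)
    have h3 : ‖DS G k s‖ * m ≤ ‖DS G k s‖ * ‖DS (ac F χ) 0 s‖ :=
      mul_le_mul_of_nonneg_left hms (norm_nonneg _)
    rw [← Finset.sum_mul, ← add_mul] at h2
    set Cc : ℝ := A (k + 1) + ∑ j ∈ Finset.range k, (k.choose j : ℝ) * (c j * A (k - j))
      with hCc
    have hCc0 : 0 ≤ Cc := add_nonneg (hA0 _).le hS0
    have h4 : ‖DS G k s‖ ≤ Cc * (l / m) ^ E / m := by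
      rw [le_div_iff₀ hm]
      exact h3.trans h2
    have h5 : Cc * (l / m) ^ E / m ≤ Cc * (l / m) ^ (E + 1) := by
      have e1 : Cc * (l / m) ^ (E + 1) = Cc * (l / m) ^ E * (l / m) := by ring
      rw [e1, div_eq_mul_one_div]
      refine mul_le_mul_of_nonneg_left ?_ (by positivity)
      exact div_le_div_of_nonneg_right hl1 hm.le
    exact h4.trans h5

end Pool.Agent.H19.SM
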