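import Pool.Agent.H23.SM.Targets

/-!
MP_52e316_nt, board sm2_modules, row K2: the mean square over a larger box.
-/

set_option autoImplicit false

open NumberField NumberField.InfinitePlace
open scoped nonZeroDivisors

namespace Pool.Agent.H19.SM.K2

open Pool.Agent.H25.HK Pool.Agent.H23.LB Pool.Agent.H23.LC
open Pool.Agent.H29.DW (Rl rv Pos)
open Pool.Agent.H31.SW (DD PP dK Pf)
open Pool.Agent.H27.TM
open Pool.Agent.H23.SM

theorem Spc_mono {K : Type} [Field K] [NumberField K] {ι : Type} {J J' : Finset ι}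
    {c : ι → InfinitePlace K → ℂ} {G : InfinitePlace K → ℝ} {D : ℝ} (h : Spc J c G D)
    (hJ : J' ⊆ J) : Spc J' c G D := by
  classical
  intro c₀
  refine le_trans ?_ (h c₀)
  exact_mod_cast Finset.card_le_card (Finset.filter_subset_filter _ hJ)

theorem pf_K2 (hK1 : S_K1) (hCN : S_CN) : S_K2 := by
  classical
  intro n ε p hn hε hp
  obtain ⟨C₁, hC₁, h1⟩ := hK1 n ε p hn hε hp
  obtain ⟨C₂, hC₂, h2⟩ := hCN n hn
  refine ⟨C₁ * C₂, by positivity, ?_⟩
  intro K _ _ hK L y ω r H τ ι J c D hL hω hτ hcls hclo hspc hD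
  have hG1 : ∀ v, 1 ≤ τ v ^ (1 / 3 : ℝ) := fun v =>
    Real.one_le_rpow (hτ v).1 (by norm_num)
  have hG3 : ∀ v, (τ v ^ (1 / 3 : ℝ)) ^ 3 = τ v := by
    intro v
    have h0 : 0 ≤ τ v := by have := (hτ v).1; linarith
    rw [← Real.rpow_natCast, ← Real.rpow_mul h0]
    norm_num
  have hGH : ∀ v, τ v ^ (1 / 3 : ℝ) ≤ H v := by
    intro v
    have h0 : 0 ≤ H v := by have := (hτ v).2.1; linarith
    refine le_of_pow_le_pow_left₀ (n := 3) (by norm_num) h0 ?_
    rw [hG3]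
    exact (hτ v).2.2
  obtain ⟨bl, hcard, hbl⟩ := h2 K hK ι J c (fun v => τ v ^ (1 / 3 : ℝ)) H
    (fun v => ⟨hG1 v, hGH v⟩) (fun j hj v => (hcls j hj).real v) hclo
  set G : InfinitePlace K → ℝ := fun v => τ v ^ (1 / 3 : ℝ) with hG
  set R : ℝ := C₁ * (D * dK K ^ 2 * PP τ ^ ε * PP G *
      ((1 + DD L y) * (1 + DD L y / PP τ) ^ (3 / 2 : ℝ))) with hR
  have hPG : 0 < PP G := by
    unfold PP
    refine Finset.prod_pos fun v _ => pow_pos ?_ _
    have := hG1 v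
    rw [hG]
    linarith
  have hcell : ∀ J' : Finset ι, J' ⊆ J → Clo J' c G →
      ∑ j ∈ J', ‖SS p L y ω r (c j)‖ ^ 2 ≤ R := fun J' hJ' hc' =>
    h1 K hK L y ω r G τ ι J' c D hL hω (fun v => ⟨hG1 v, hG3 v⟩)
      (fun j hj => hcls j (hJ' hj)) hc' (Spc_mono hspc hJ') hD
  have hR0 : 0 ≤ R := by
    have := hcell ∅ (Finset.empty_subset _) (by
      intro i hi
      exact absurd hi (Finset.notMem_empty _))
    simpa using this
  have hsum : ∑ j ∈ J, ‖SS p L y ω r (c j)‖ ^ 2 =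
      ∑ b ∈ J.image bl, ∑ j ∈ J.filter (fun j => bl j = b), ‖SS p L y ω r (c j)‖ ^ 2 :=
    (Finset.sum_fiberwise_of_maps_to (fun j hj => Finset.mem_image_of_mem bl hj) _).symm
  rw [hsum]
  have h3 : ∑ b ∈ J.image bl, ∑ j ∈ J.filter (fun j => bl j = b), ‖SS p L y ω r (c j)‖ ^ 2 ≤
      ∑ _b ∈ J.image bl, R := by
    refine Finset.sum_le_sum fun b _ => hcell _ (Finset.filter_subset _ _) ?_
    intro i hi j hj v
    rw [Finset.mem_filter] at hi hj
    exact hbl i hi.1 j hj.1 (hi.2.trans hj.2.symm) v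
  refine h3.trans ?_
  rw [Finset.sum_const, nsmul_eq_mul]
  refine (mul_le_mul_of_nonneg_right hcard hR0).trans (le_of_eq ?_)
  rw [hR]
  have hne := hPG.ne'
  field_simp

end Pool.Agent.H19.SM.K2
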