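import Pool.Agent.H20.SM.Targets
import Pool.Agent.H92.RC.TWT
import Pool.Agent.H81.CV.GL

/-!
# Units modulo a divisor of `q` (row U2)
-/

set_option autoImplicit false

open NumberField NumberField.InfinitePlace Complex Filter Topology
open scoped Pointwise

namespace Pool.Agent.H19.SM

open Pool.Agent.H28.RC Pool.Agent.H25.HK Pool.Agent.H37.CV Pool.Agent.H20.SM

section

variable (F : Type) [Field F] [NumberField F]

/-- the product of the conjugates of a unit of a totally complex Galois field -/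
lemma U2_norm [IsTotallyComplex F] [IsGalois ℚ F] (w : (𝓞 F)ˣ) :
    ∏ σ : F ≃ₐ[ℚ] F, (σ • (w : 𝓞 F)) = 1 := by
  have hw0 : (((w : 𝓞 F) : F)) ≠ 0 := by
    intro h
    exact w.ne_zero (RingOfIntegers.coe_eq_zero_iff.1 h)
  have h1 : 0 < Algebra.norm ℚ ((w : 𝓞 F) : F) := by
    refine Pool.Agent.H92.RC.norm_pos_of_totpos _ hw0 fun v => ?_
    exact absurd v.2 (not_isReal_iff_isComplex.2 (IsTotallyComplex.isComplex v.1))
  have h2 : |Algebra.norm ℚ ((w : 𝓞 F) : F)| = 1 := by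
    have := NumberField.isUnit_iff_norm.1 w.isUnit
    rwa [RingOfIntegers.coe_norm] at this
  rw [abs_of_pos h1] at h2
  have h3 := Algebra.norm_eq_prod_automorphisms ℚ ((w : 𝓞 F) : F)
  rw [h2, map_one] at h3
  apply RingOfIntegers.ext
  change algebraMap (𝓞 F) F (∏ σ : F ≃ₐ[ℚ] F, (σ • (w : 𝓞 F))) = algebraMap (𝓞 F) F 1
  rw [map_prod, map_one, h3]
  rfl

variable {F}

/-- the norm argument -/
lemma U2_key [IsTotallyComplex F] [IsGalois ℚ F] (w : (𝓞 F)ˣ) (P : Ideal (𝓞 F)) [P.IsPrime]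
    (h : ∀ σ : F ≃ₐ[ℚ] F, σ ≠ 1 → (w : 𝓞 F) - 1 ∈ σ⁻¹ • P) : (w : 𝓞 F) - 1 ∈ P := by
  classical
  have h1 := U2_norm F w
  rw [← Finset.mul_prod_erase Finset.univ _ (Finset.mem_univ (1 : F ≃ₐ[ℚ] F)), one_smul] at h1
  have h2 := congrArg (Ideal.Quotient.mk P) h1
  rw [map_mul, map_prod, map_one] at h2
  have h3 : ∏ σ ∈ (Finset.univ : Finset (F ≃ₐ[ℚ] F)).erase 1,
      Ideal.Quotient.mk P (σ • (w : 𝓞 F)) = 1 := by
    refine Finset.prod_eq_one fun σ hσ => ?_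
    have h4 := h σ (Finset.ne_of_mem_erase hσ)
    rw [Ideal.mem_inv_pointwise_smul_iff, smul_sub, smul_one] at h4
    have h5 : Ideal.Quotient.mk P (σ • (w : 𝓞 F)) = Ideal.Quotient.mk P 1 :=
      Ideal.Quotient.eq.2 h4
    rw [h5, map_one]
  rw [h3, mul_one] at h2
  rw [← map_one (Ideal.Quotient.mk P)] at h2
  exact Ideal.Quotient.eq.1 h2

/-- divisibility by a squarefree number -/
lemma U2_sq (q : ℕ) (hq : Squarefree q) (x : 𝓞 F)
    (h : ∀ p ∈ q.primeFactors, x ∈ Ideal.span {(p : 𝓞 F)}) : x ∈ qi F q := by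
  unfold qi
  rw [Ideal.mem_span_singleton]
  have h1 : (q : 𝓞 F) = ∏ p ∈ q.primeFactors, (p : 𝓞 F) := by
    conv_lhs => rw [← Nat.prod_primeFactors_of_squarefree hq]
    push_cast
    rfl
  rw [h1]
  refine Finset.prod_dvd_of_coprime ?_ fun p hp => Ideal.mem_span_singleton.1 (h p hp)
  intro p hp p' hp' hne
  exact Nat.Coprime.cast ((Nat.coprime_primes (Nat.prime_of_mem_primeFactors hp)
    (Nat.prime_of_mem_primeFactors hp')).2 hne)

/-- the number of the classes of the units modulo two ideals -/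
lemma U2_card (I d : Ideal (𝓞 F)) (hd : d ≠ ⊥) (R : Finset (PrI F))
    (h : ∀ w : (𝓞 F)ˣ, (w : 𝓞 F) - 1 ∈ d → (∀ P ∈ R, (w : 𝓞 F) - 1 ∈ P.1) →
      (w : 𝓞 F) - 1 ∈ I) : uc I ≤ uc d * ∏ P ∈ R, Ideal.absNorm P.1 := by
  classical
  have hfd : Finite (𝓞 F ⧸ d) := Ideal.finiteQuotientOfFreeOfNeBot d hd
  have hfP : ∀ P : {P // P ∈ R}, Finite (𝓞 F ⧸ P.1.1) := fun P =>
    Ideal.finiteQuotientOfFreeOfNeBot _ P.1.2.2
  let A := Set.range fun u : (𝓞 F)ˣ => Ideal.Quotient.mk I (u : 𝓞 F)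
  let B := Set.range fun u : (𝓞 F)ˣ => Ideal.Quotient.mk d (u : 𝓞 F)
  have hA : ∀ c : A, ∃ u : (𝓞 F)ˣ, Ideal.Quotient.mk I (u : 𝓞 F) = c.1 := fun c => c.2
  choose u hu using hA
  let f : A → B × (∀ P : {P // P ∈ R}, 𝓞 F ⧸ P.1.1) := fun c =>
    (⟨Ideal.Quotient.mk d (u c : 𝓞 F), ⟨u c, rfl⟩⟩, fun P => Ideal.Quotient.mk P.1.1 (u c : 𝓞 F))
  have hf : Function.Injective f := by
    intro c c' hcc
    have h1 : Ideal.Quotient.mk d (u c : 𝓞 F) = Ideal.Quotient.mk d (u c' : 𝓞 F) :=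
      congrArg Subtype.val (congrArg Prod.fst hcc)
    have h2 : ∀ P : {P // P ∈ R}, Ideal.Quotient.mk P.1.1 (u c : 𝓞 F) =
        Ideal.Quotient.mk P.1.1 (u c' : 𝓞 F) := fun P => congrFun (congrArg Prod.snd hcc) P
    have hw : ((u c * (u c')⁻¹ : (𝓞 F)ˣ) : 𝓞 F) - 1 =
        ((u c : 𝓞 F) - (u c' : 𝓞 F)) * ((u c')⁻¹ : (𝓞 F)ˣ) := by
      rw [sub_mul, Units.mul_inv, Units.val_mul]
    have h3 : ((u c * (u c')⁻¹ : (𝓞 F)ˣ) : 𝓞 F) - 1 ∈ I := by
      refine h _ ?_ fun P hP => ?_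
      · rw [hw]
        exact Ideal.mul_mem_right _ _ (Ideal.Quotient.eq.1 h1)
      · rw [hw]
        exact Ideal.mul_mem_right _ _ (Ideal.Quotient.eq.1 (h2 ⟨P, hP⟩))
    have h4 : (u c : 𝓞 F) - (u c' : 𝓞 F) ∈ I := by
      have e : (u c : 𝓞 F) - (u c' : 𝓞 F) =
          (((u c * (u c')⁻¹ : (𝓞 F)ˣ) : 𝓞 F) - 1) * (u c' : 𝓞 F) := by
        rw [hw, mul_assoc, Units.inv_mul, mul_one]
      rw [e]
      exact Ideal.mul_mem_right _ _ h3
    apply Subtype.ext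
    rw [← hu c, ← hu c']
    exact Ideal.Quotient.eq.2 h4
  have hcard := Nat.card_le_card_of_injective f hf
  rw [Nat.card_prod, Nat.card_pi] at hcard
  have e1 : uc I = Nat.card A := rfl
  have e2 : uc d = Nat.card B := rfl
  have e3 : ∏ P : {P // P ∈ R}, Nat.card (𝓞 F ⧸ P.1.1) = ∏ P ∈ R, Ideal.absNorm P.1 := by
    rw [← Finset.prod_coe_sort R (fun P => Ideal.absNorm P.1)]
    rfl
  rw [e1, e2, ← e3]
  exact hcard

end

theorem pf_U2 (hSPL : Pool.Agent.H20.SM.T_SPL) (hCRT : T_CRT) : T_U2 := by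
  classical
  intro F _ _ _ _ q hq d hd
  obtain ⟨c1, -, c3, -, c5, -⟩ := hCRT F q hq
  have hspl : ∀ p ∈ q.primeFactors, Spl F p := hq.2
  have hq0 : q ≠ 0 := hq.1.ne_zero
  have hqi : qi F q ≠ ⊥ := by
    unfold qi
    rw [Ne, Ideal.span_singleton_eq_bot]
    exact_mod_cast hq0
  have hd0 : d ≠ ⊥ := fun h => hqi (le_bot_iff.1 (h ▸ hd))
  have mem_q : ∀ P : PrI F, P ∈ pf (qi F q) ↔ qi F q ≤ P.1 := Pool.Agent.H81.CV.mem_pf hqi
  have mem_d : ∀ P : PrI F, P ∈ pf d ↔ d ≤ P.1 := Pool.Agent.H81.CV.mem_pf hd0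
  -- the chosen primes
  have hex : ∀ p ∈ Pd q d, ∃ P : PrI F, (p : 𝓞 F) ∈ P.1 ∧ ¬ d ≤ P.1 := by
    intro p hp
    obtain ⟨hpq, hpd⟩ := Finset.mem_filter.1 hp
    obtain ⟨-, s2, s3, -⟩ := hSPL F p (hspl p hpq)
    by_contra hno
    push Not at hno
    refine hpd fun x hx => s3 x fun P hP hpP => ?_
    exact hno ⟨P, hP, (s2 P hP hpP).1⟩ hpP hx
  choose P0 hP0 using hex
  set T : Finset (PrI F) := (Pd q d).attach.image fun p => P0 p.1 p.2 with hT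
  set R : Finset (PrI F) := (pf (qi F q) \ pf d) \ T with hR
  have hPd : ∀ p ∈ Pd q d, p ∈ q.primeFactors := fun p hp => (Finset.mem_filter.1 hp).1
  have hP0q : ∀ p (hp : p ∈ Pd q d), P0 p hp ∈ pf (qi F q) := fun p hp =>
    (c3 _).2 ⟨p, hPd p hp, (hP0 p hp).1⟩
  have hTsub : T ⊆ pf (qi F q) \ pf d := by
    intro P hP
    obtain ⟨p, -, rfl⟩ := Finset.mem_image.1 hP
    exact Finset.mem_sdiff.2 ⟨hP0q p.1 p.2, fun h => (hP0 p.1 p.2).2 ((mem_d _).1 h)⟩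
  -- two primes of `q` in the same ideal are equal
  have huni : ∀ P ∈ pf (qi F q), ∀ p ∈ q.primeFactors, ∀ p' ∈ q.primeFactors,
      (p : 𝓞 F) ∈ P.1 → (p' : 𝓞 F) ∈ P.1 → p = p' := by
    intro P hP p hp p' hp' h1 h2
    have e1 := c5 p hp P hP h1
    have e2 := c5 p' hp' P hP h2
    have : (p : ℝ) = p' := by rw [← e1, e2]
    exact_mod_cast this
  have hall : ∀ w : (𝓞 F)ˣ, (w : 𝓞 F) - 1 ∈ d → (∀ P ∈ R, (w : 𝓞 F) - 1 ∈ P.1) →
      (w : 𝓞 F) - 1 ∈ qi F q := by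
    intro w hwd hwR
    have hmem : ∀ P ∈ pf (qi F q), P ∉ T → (w : 𝓞 F) - 1 ∈ P.1 := by
      intro P hP hPT
      by_cases hPd' : P ∈ pf d
      · exact (mem_d P).1 hPd' hwd
      · exact hwR P (Finset.mem_sdiff.2 ⟨Finset.mem_sdiff.2 ⟨hP, hPd'⟩, hPT⟩)
    have hmem2 : ∀ P ∈ pf (qi F q), (w : 𝓞 F) - 1 ∈ P.1 := by
      intro P hP
      by_cases hPT : P ∈ T
      · obtain ⟨⟨p, hp⟩, -, rfl⟩ := Finset.mem_image.1 hPT
        simp only at hP ⊢
        obtain ⟨-, s2, -, s4⟩ := hSPL F p (hspl p (hPd p hp))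
        have hpr : (P0 p hp).1.IsPrime := (P0 p hp).2.1
        refine U2_key w (P0 p hp).1 fun σ hσ => ?_
        have hpr' : (σ⁻¹ • (P0 p hp).1).IsPrime := inferInstance
        have hpm : (p : 𝓞 F) ∈ σ⁻¹ • (P0 p hp).1 := by
          rw [Ideal.mem_inv_pointwise_smul_iff]
          have e : σ • (p : 𝓞 F) = (p : 𝓞 F) :=
            map_natCast (MulSemiringAction.toRingHom (F ≃ₐ[ℚ] F) (𝓞 F) σ) p
          rw [e]
          exact (hP0 p hp).1
        have hb := (s2 _ hpr' hpm).1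
        have hQ : (⟨σ⁻¹ • (P0 p hp).1, hpr', hb⟩ : PrI F) ∈ pf (qi F q) :=
          (c3 _).2 ⟨p, hPd p hp, hpm⟩
        refine hmem _ hQ fun hQT => ?_
        obtain ⟨⟨p', hp'⟩, -, he⟩ := Finset.mem_image.1 hQT
        simp only at he
        have hpp : p = p' := by
          refine huni _ hQ p (hPd p hp) p' (hPd p' hp') hpm ?_
          rw [← he]
          exact (hP0 p' hp').1
        subst hpp
        have he' : (P0 p hp).1 = σ⁻¹ • (P0 p hp).1 := congrArg Subtype.val he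
        have := s4 (P0 p hp).1 σ⁻¹ hpr (hP0 p hp).1 he'.symm
        exact hσ (inv_eq_one.1 this)
      · exact hmem P hP hPT
    refine U2_sq q hq.1 _ fun p hp => ?_
    obtain ⟨-, s2, s3, -⟩ := hSPL F p (hspl p hp)
    refine s3 _ fun P hP hpP => ?_
    exact hmem2 ⟨P, hP, (s2 P hP hpP).1⟩ ((c3 _).2 ⟨p, hp, hpP⟩)
  have hcard := U2_card (qi F q) d hd0 R hall
  have hcard' : (uc (qi F q) : ℝ) ≤ uc d * ∏ P ∈ R, np P := by
    have h1 : ((uc (qi F q) : ℕ) : ℝ) ≤ ((uc d * ∏ P ∈ R, Ideal.absNorm P.1 : ℕ) : ℝ) := by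
      exact_mod_cast hcard
    rw [Nat.cast_mul, Nat.cast_prod] at h1
    exact h1
  -- the products
  have hT' : ∏ P ∈ T, np P = pd q d := by
    rw [hT, Finset.prod_image]
    · unfold pd
      rw [← Finset.prod_attach (Pd q d) (fun p => (p : ℝ))]
      exact Finset.prod_congr rfl fun p _ =>
        c5 p.1 (hPd p.1 p.2) _ (hP0q p.1 p.2) (hP0 p.1 p.2).1
    · intro p _ p' _ he
      simp only at he
      apply Subtype.ext
      refine huni _ (hP0q p.1 p.2) p.1 (hPd p.1 p.2) p'.1 (hPd p'.1 p'.2) (hP0 p.1 p.2).1 ?_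
      rw [he]
      exact (hP0 p'.1 p'.2).1
  obtain ⟨-, hnq, -⟩ := c1 (qi F q) le_rfl
  obtain ⟨-, hnd, hsub⟩ := c1 d hd
  have hprod : nm (qi F q) = (∏ P ∈ R, np P) * pd q d * nm d := by
    rw [hnq, hnd]
    unfold nS
    rw [← Finset.prod_sdiff hsub, ← Finset.prod_sdiff hTsub, hT']
  have hpd0 : 0 ≤ pd q d := Finset.prod_nonneg fun p _ => Nat.cast_nonneg p
  have hnd0 : 0 ≤ nm d := by unfold nm; exact Nat.cast_nonneg _
  rw [hprod]
  calc (uc (qi F q) : ℝ) * nm d * pd q d ≤ (uc d * ∏ P ∈ R, np P) * nm d * pd q d :=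
        mul_le_mul_of_nonneg_right (mul_le_mul_of_nonneg_right hcard' hnd0) hpd0
    _ = uc d * ((∏ P ∈ R, np P) * pd q d * nm d) := by ring

end Pool.Agent.H19.SM
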